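import Pool.Agent.LRG.StmtsC

/-!
# Squad LRG, row MAT (helper17): the roots go to the conjugates of the units
-/

set_option autoImplicit false

open Polynomial NumberField

namespace Pool.Agent.LRG.H17

theorem chi_map {S S' : Type} [CommRing S] [CommRing S'] (f : S →+* S') (n : ℕ) (e : ℤ)
    (y : Fin (n - 1) → S) : (chi n e y).map f = chi n e (fun j => f (y j)) := by
  unfold chi
  simp [Polynomial.map_sum]

theorem chiI_map {S S' : Type} [CommRing S] [CommRing S'] (f : S →+* S') {n r : ℕ}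
    (e : Fin r → ℤ) (y : Ix n r → S) (i : Fin r) :
    (chiI e y i).map f = chiI e (fun s => f (y s)) i := by
  unfold chiI
  rw [chi_map]

theorem bij_of_prod {E : Type} [Field E] {α β : Type} [Fintype α] [Fintype β] (f : α → E)
    (h : β → E) (hf : Function.Injective f)
    (he : ∏ a, ((X : E[X]) - C (f a)) = ∏ b, ((X : E[X]) - C (h b))) :
    ∃ π : β ≃ α, ∀ b, h b = f (π b) := by
  have h1 : ∀ {γ : Type} [Fintype γ] (q : γ → E), (∏ c, ((X : E[X]) - C (q c))).roots =
      Multiset.map q Finset.univ.val := by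
    intro γ _ q
    have e1 : ∏ c, ((X : E[X]) - C (q c)) =
        (Multiset.map (fun a => (X : E[X]) - C a) (Multiset.map q Finset.univ.val)).prod := by
      rw [Multiset.map_map]; rfl
    rw [e1, Polynomial.roots_multiset_prod_X_sub_C]
  have h2 : Multiset.map f Finset.univ.val = Multiset.map h Finset.univ.val := by
    rw [← h1 f, ← h1 h, he]
  have h3 : Function.Injective h := by
    have n1 : (Multiset.map f Finset.univ.val).Nodup :=
      Multiset.Nodup.map hf Finset.univ.nodup
    rw [h2] at n1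
    intro a b hab
    exact (Multiset.nodup_map_iff_inj_on Finset.univ.nodup).1 n1 a (Finset.mem_univ a) b
      (Finset.mem_univ b) hab
  have h4 : ∀ b, ∃ a, f a = h b := by
    intro b
    have : h b ∈ Multiset.map f Finset.univ.val := by
      rw [h2]; exact Multiset.mem_map_of_mem h (Finset.mem_univ b)
    obtain ⟨a, -, ha⟩ := Multiset.mem_map.1 this
    exact ⟨a, ha⟩
  have h5 : ∀ a, ∃ b, h b = f a := by
    intro a
    have : f a ∈ Multiset.map h Finset.univ.val := by
      rw [← h2]; exact Multiset.mem_map_of_mem f (Finset.mem_univ a)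
    obtain ⟨b, -, hb⟩ := Multiset.mem_map.1 this
    exact ⟨b, hb⟩
  choose π hπ using h4
  refine ⟨Equiv.ofBijective π ⟨?_, ?_⟩, fun b => (hπ b).symm⟩
  · intro b b' hb
    apply h3
    rw [← hπ b, ← hπ b', hb]
  · intro a
    obtain ⟨b, hb⟩ := h5 a
    exact ⟨b, hf (by rw [hπ b, hb])⟩

theorem mat (hMCH : A.MchStmt) (hSPL : A.SplStmt) : CX.MatStmt := by
  intro Ω _ n r p z₀ e η x hn hchi z g hg K _ _ u hK hu hcst hpt
  have hη : ∀ s, η s ∈ CX.Rx η x := fun s =>
    Subring.subset_closure (Or.inl ⟨s, rfl⟩)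
  have hx : ∀ i j, x i j ∈ CX.Rx η x := fun i j =>
    Subring.subset_closure (Or.inr ⟨(i, j), rfl⟩)
  have key : ∀ i, ∃ π : Fin n ≃ (K →+* ℂ), ∀ j, g ⟨x i j, hx i j⟩ = π j ((u i : 𝓞 K) : K) := by
    intro i
    -- the equation over the ring
    have h1 : chiI e (fun s => (z₀ s : CX.Rx η x) + (p : CX.Rx η x) ^ 2 * ⟨η s, hη s⟩) i =
        ∏ j, (X - C (⟨x i j, hx i j⟩ : CX.Rx η x)) := by
      apply Polynomial.map_injective (CX.Rx η x).subtype Subtype.val_injective
      rw [chiI_map, Polynomial.map_prod]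
      simp only [map_add, map_mul, map_pow, map_natCast, map_intCast, Subring.subtype_apply,
        Polynomial.map_sub, Polynomial.map_X, Polynomial.map_C]
      exact hchi i
    have h2 := congrArg (Polynomial.map g) h1
    rw [chiI_map, Polynomial.map_prod] at h2
    simp only [map_add, map_mul, map_pow, map_natCast, map_intCast, hg,
      Polynomial.map_sub, Polynomial.map_X, Polynomial.map_C] at h2
    -- the minimal polynomial
    obtain ⟨hm, -⟩ := hMCH n K (u i) hK (hu i)
    obtain ⟨hinj, hs⟩ := hSPL K (u i : 𝓞 K) (hu i) ℂ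
    have h3 := congrArg (Polynomial.map (Int.castRingHom ℂ)) hm
    rw [chi_map, hs] at h3
    have h4 : chiI e (fun s => (z₀ s : ℂ) + (p : ℂ) ^ 2 * (z s : ℂ)) i =
        chi n ((minpoly ℤ (u i : 𝓞 K)).coeff 0)
          (fun j => (Int.castRingHom ℂ) ((minpoly ℤ (u i : 𝓞 K)).coeff (j.1 + 1))) := by
      have e0 : (minpoly ℤ (u i : 𝓞 K)).coeff 0 = e i := congrFun hcst i
      rw [e0]
      unfold chiI
      congr 1
      funext j
      have e1 : (minpoly ℤ (u i : 𝓞 K)).coeff (j.1 + 1) =
          z₀ (Sum.inl (i, j)) + (p : ℤ) ^ 2 * z (Sum.inl (i, j)) := hpt (Sum.inl (i, j))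
      rw [e1]
      simp
    rw [h4, ← h3] at h2
    exact bij_of_prod _ _ hinj h2
  choose π hπ using key
  exact ⟨π, fun i j _ => hπ i j⟩

end Pool.Agent.LRG.H17
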